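import Pool.Agent.Helper20.RC.RqOf2

/-!
# Project SHARP: the end with three zones

`rq_of3`: `Rq 2 1` from zone I (`|A| + 2 |B| ≤ 1/4`, data rotated to `A ≥ 0`), and the two sectors of zone II
(`|A| + 2 |B| > 1/4`). `A = fc z (-3)`, `B = fc z (-5)`.
-/

open MeasureTheory Set Filter Topology

namespace Pool.Agent.Helper10.SH

open Helper49.Sharp Helper49.RC Helper44.GQ
open Helper56.RC (fc)
open Pool.Agent.Helper35.RC (admQ_shift exists_rot)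
open Pool.Agent.Helper20.RC

/-- zone I: `A ≥ 0`, `0 ≤ arg B ≤ π/3`, `|A| + 2 |B| ≤ 1/4` -/
def StZ1 (Near : (ℝ → ℂ) → (ℝ → ℂ) → Prop) : Prop := ∀ b z : ℝ → ℂ, AdmQ 2 b z →
  fc z (-3) = (‖fc z (-3)‖ : ℂ) → 0 ≤ (fc z (-5)).im → (fc z (-5)).im ≤ Real.sqrt 3 * (fc z (-5)).re →
  ‖fc z (-3)‖ + 2 * ‖fc z (-5)‖ ≤ 1 / 4 → Near b z → ∃ P : Par, P.Good b z ∧ 0 ≤ P.EP b z

/-- zone II, sector 1 -/
def StN1 (Near : (ℝ → ℂ) → (ℝ → ℂ) → Prop) : Prop := ∀ b z : ℝ → ℂ, AdmQ 2 b z → Sec1 z →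
  1 / 4 < ‖fc z (-3)‖ + 2 * ‖fc z (-5)‖ → Near b z → ∃ P : Par, P.Good b z ∧ 0 ≤ P.EP b z

/-- zone II, sector 2 -/
def StN2 (Near : (ℝ → ℂ) → (ℝ → ℂ) → Prop) : Prop := ∀ b z : ℝ → ℂ, AdmQ 2 b z → Sec2 z →
  1 / 4 < ‖fc z (-3)‖ + 2 * ‖fc z (-5)‖ → Near b z → ∃ P : Par, P.Good b z ∧ 0 ≤ P.EP b z

/-- **the end with three zones** -/
theorem rq_of3 (Near : (ℝ → ℂ) → (ℝ → ℂ) → Prop) (hF : StFarN Near) (hZ : StZ1 Near) (h1 : StN1 Near)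
    (h2 : StN2 Near) : Rq 2 1 := by
  have two : (0 : ℝ) < 2 := by norm_num
  have fin : ∀ b z : ℝ → ℂ, AdmQ 2 b z → (Near b z → ∃ P : Par, P.Good b z ∧ 0 ≤ P.EP b z) → Goal 2 1 b z := by
    intro b z h hN
    by_cases hn : Near b z
    · exact goal_of_par h (hN hn)
    · exact ⟨wR 0 0 0, wR_wgt (by simp), hF b z h hn⟩
  intro b z h
  show Goal 2 1 b z
  have z2 := per2 h.perz
  by_cases hc : 2 * ‖fc z (-3)‖ < ‖fc z (-5)‖ ∧ 1 / 4 < ‖fc z (-3)‖ + 2 * ‖fc z (-5)‖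
  · obtain ⟨τ, hτ⟩ := exists_rot (fc z (-5)) (-5) (by norm_num)
    apply goal_shift h τ
    have h' := admQ_shift h τ
    have hB : fc (fun t => z (t + τ)) (-5) = (‖fc (fun t => z (t + τ)) (-5)‖ : ℂ) := by
      rw [norm_fcshift z2, fcshift z2, hτ]
    refine goal_sec5 two h' hB fun b' z' k e5 n3 i1 i2 => fin b' z' k fun hn => ?_
    have m3 : ‖fc z' (-3)‖ = ‖fc z (-3)‖ := by rw [n3, norm_fcshift z2]
    have m5 : ‖fc z' (-5)‖ = ‖fc z (-5)‖ := by rw [e5, norm_fcshift z2]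
    refine h2 b' z' k ⟨?_, ?_, i1, i2⟩ ?_ hn
    · rw [m3, m5]; exact hc.1
    · rw [e5]; exact hB
    · rw [m3, m5]; exact hc.2
  · obtain ⟨τ, hτ⟩ := exists_rot (fc z (-3)) (-3) (by norm_num)
    apply goal_shift h τ
    have h' := admQ_shift h τ
    have hA : fc (fun t => z (t + τ)) (-3) = (‖fc (fun t => z (t + τ)) (-3)‖ : ℂ) := by
      rw [norm_fcshift z2, fcshift z2, hτ]
    refine goal_sec3 two h' hA fun b' z' k e3 n5 i1 i2 => fin b' z' k fun hn => ?_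
    have m3 : ‖fc z' (-3)‖ = ‖fc z (-3)‖ := by rw [e3, norm_fcshift z2]
    have m5 : ‖fc z' (-5)‖ = ‖fc z (-5)‖ := by rw [n5, norm_fcshift z2]
    have hA' : fc z' (-3) = (‖fc z' (-3)‖ : ℂ) := by rw [e3]; exact hA
    by_cases hz : ‖fc z (-3)‖ + 2 * ‖fc z (-5)‖ ≤ 1 / 4
    · exact hZ b' z' k hA' i1 i2 (by rw [m3, m5]; exact hz) hn
    · push Not at hz
      refine h1 b' z' k ⟨?_, hA', i1, i2⟩ (by rw [m3, m5]; exact hz) hn
      rw [m3, m5]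
      by_contra hcc
      push Not at hcc
      exact hc ⟨hcc, hz⟩

end Pool.Agent.Helper10.SH
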